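import Pool.Agent.Helper332.NB7

set_option autoImplicit false

universe u v

namespace Pool.Agent.Results.MP_bc8021_gt.FiniteProducts

open Pool.Agent.Helper332.NB

/-- A product of finitely many `T1` spaces, each with a base of point-finite rank, is metacompact,
and so is each of its subspaces. The `T1` assumption cannot be dropped: there is a `T0` space with a
base of rank one (hence of point-finite rank) whose square is not metacompact. -/
theorem result :
    (∀ (ι : Type v) [Finite ι] (X : ι → Type u) [∀ i, TopologicalSpace (X i)]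
      [∀ i, T1Space (X i)],
      (∀ i, ∃ B : Set (Set (X i)), TopologicalSpace.IsTopologicalBasis B ∧ PointFiniteRank B) →
      Metacompact (∀ i, X i) ∧ ∀ S : Set (∀ i, X i), Metacompact S) ∧
    ∃ (X : Type) (_ : TopologicalSpace X), T0Space X ∧
      (∃ B : Set (Set X), TopologicalSpace.IsTopologicalBasis B ∧ PointFiniteRank B ∧
        ∀ x : X, ∀ U ∈ B, ∀ V ∈ B, x ∈ U → x ∈ V → U ⊆ V ∨ V ⊆ U) ∧
      ¬ Metacompact (Fin 2 → X) := by
  constructor
  · intro ι _ X _ _ h
    choose B hB hr using h
    choose Γ h1 h2 h3 _ using fun i => main (hB i) (hr i)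
    have hb := boxes_base h1
    have hN := boxes_noetherian h2 (fun i => (h3 i).subinfinite)
    have hs := boxes_subinfinite h2 (fun i => (h3 i).subinfinite)
    exact ⟨metacompact_of_inducing Topology.IsInducing.id hb hN hs,
      fun S => metacompact_of_inducing Topology.IsInducing.subtypeVal hb hN hs⟩
  · exact ⟨Seg, Seg.top, Seg.t0, ⟨Set.range Seg.seg, Seg.base, Seg.rank,
      fun _ U hU V hV _ _ => Seg.total U V hU hV⟩, Seg.not_metacompact⟩

end Pool.Agent.Results.MP_bc8021_gt.FiniteProducts
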